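import Pool.Agent.Helper40.Nil.Stmts3
import Pool.Agent.Helper7.Lin.EXT

/-! # MP_7a8f48_an, nil_mods: module EXTP -/

set_option autoImplicit false

namespace Pool.Agent.Helper40.Nil

open scoped Polynomial

universe u v

theorem extp_tr (p : ℕ) [Fact p.Prime] (F : Type u) [Field F] [Algebra (ZMod p) F] (ρ : F)
    (h0 : ρ ≠ 0) (h : ∀ n : ℕ, 1 ≤ n → ρ ^ n ≠ 1) : Transcendental (ZMod p) ρ := by
  intro halg
  have hint : IsIntegral (ZMod p) ρ := halg.isIntegral
  have i1 : FiniteDimensional (ZMod p) (IntermediateField.adjoin (ZMod p) {ρ}) :=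
    IntermediateField.adjoin.finiteDimensional hint
  have i2 : Finite (IntermediateField.adjoin (ZMod p) {ρ}) := Module.finite_of_finite (ZMod p)
  let r : IntermediateField.adjoin (ZMod p) {ρ} :=
    ⟨ρ, IntermediateField.mem_adjoin_simple_self (ZMod p) ρ⟩
  have hr0 : r ≠ 0 := fun h1 => h0 (congrArg Subtype.val h1)
  have h2 := isOfFinOrder_of_finite (Units.mk0 r hr0)
  obtain ⟨n, hn, hpow⟩ := isOfFinOrder_iff_pow_eq_one.1 h2
  apply h n hn
  have h3 := congrArg (fun z : (IntermediateField.adjoin (ZMod p) {ρ})ˣ =>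
    ((z : IntermediateField.adjoin (ZMod p) {ρ}) : F)) hpow
  simpa using h3

theorem st_EXTP : ST_EXTP.{u, v} := by
  intro p _ F _ _ _ ρ Ω _ _ _ _ β hρ0 hρ hβ0 hβ
  let b1 : Algebra (ZMod p) F := ZMod.algebra F p
  let b2 : Algebra (ZMod p) Ω := ZMod.algebra Ω p
  have h1 := extp_tr p F ρ hρ0 hρ
  have h2 := extp_tr p Ω β hβ0 hβ
  let a1 : Algebra (ZMod p)[X] F := (Polynomial.aeval ρ).toRingHom.toAlgebra
  let a2 : Algebra (ZMod p)[X] Ω := (Polynomial.aeval β).toRingHom.toAlgebra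
  have i1 : Function.Injective (algebraMap (ZMod p)[X] F) := transcendental_iff_injective.1 h1
  have i2 : Function.Injective (algebraMap (ZMod p)[X] Ω) := transcendental_iff_injective.1 h2
  obtain ⟨σ, hσ⟩ := Pool.Agent.Helper7.Lin.ext_aux i1 i2
  refine ⟨σ, ?_⟩
  have e1 : algebraMap (ZMod p)[X] F Polynomial.X = ρ := Polynomial.aeval_X ρ
  have e2 : algebraMap (ZMod p)[X] Ω Polynomial.X = β := Polynomial.aeval_X β
  rw [← e1, hσ, e2]

end Pool.Agent.Helper40.Nil
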